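import Pool.Agent.helper81.UH.Spec

/-!
# Project uh (MP_a2a22c_al), row FLG: the recursion
-/

set_option autoImplicit false

namespace Pool.Agent.UH

open Matrix Pool.Agent.H48SL Pool.Agent.UG

/-- the flag: `F 0` is the kernel of `f`, and `F (i + 1)` is spanned by `𝔞 F i` -/
def FLG_F {n : ℕ} (𝔞 : Submodule ℚ (MQ n)) (f : Fin n → ℚ) : ℕ → Submodule ℚ (Fin n → ℚ)
  | 0 => LinearMap.ker (Matrix.mulVecLin (Matrix.of fun (_ : Fin 1) j => f j))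
  | i + 1 => Submodule.span ℚ {u | ∃ Z ∈ 𝔞, ∃ v ∈ FLG_F 𝔞 f i, u = Z *ᵥ v}

theorem FLG_mem0 {n : ℕ} (𝔞 : Submodule ℚ (MQ n)) (f v : Fin n → ℚ) :
    v ∈ FLG_F 𝔞 f 0 ↔ f ⬝ᵥ v = 0 := by
  rw [FLG_F, LinearMap.mem_ker, Matrix.mulVecLin_apply]
  constructor
  · intro h
    exact congrFun h 0
  · intro h
    funext i
    exact h

theorem FLG_succ {n : ℕ} (𝔞 : Submodule ℚ (MQ n)) (f : Fin n → ℚ) (i : ℕ) {Z : MQ n}
    (hZ : Z ∈ 𝔞) {v : Fin n → ℚ} (hv : v ∈ FLG_F 𝔞 f i) : Z *ᵥ v ∈ FLG_F 𝔞 f (i + 1) :=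
  Submodule.subset_span ⟨Z, hZ, v, hv, rfl⟩

theorem FLG_le {n : ℕ} (𝔞 : Submodule ℚ (MQ n)) (f : Fin n → ℚ) (hf : ∀ Z ∈ 𝔞, f ᵥ* Z = 0)
    (i : ℕ) : FLG_F 𝔞 f (i + 1) ≤ FLG_F 𝔞 f i := by
  induction i with
  | zero =>
    refine Submodule.span_le.2 ?_
    rintro u ⟨Z, hZ, v, -, rfl⟩
    show Z *ᵥ v ∈ FLG_F 𝔞 f 0
    rw [FLG_mem0, Matrix.dotProduct_mulVec, hf Z hZ, zero_dotProduct]
  | succ i ih =>
    refine Submodule.span_le.2 ?_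
    rintro u ⟨Z, hZ, v, hv, rfl⟩
    exact FLG_succ 𝔞 f i hZ (ih hv)

theorem FLG_le0 {n : ℕ} (𝔞 : Submodule ℚ (MQ n)) (f : Fin n → ℚ) (hf : ∀ Z ∈ 𝔞, f ᵥ* Z = 0)
    (i : ℕ) : FLG_F 𝔞 f i ≤ FLG_F 𝔞 f 0 := by
  induction i with
  | zero => exact le_rfl
  | succ i ih => exact (FLG_le 𝔞 f hf i).trans ih

theorem FLG_span {n : ℕ} (𝔞 : Submodule ℚ (MQ n)) (f : Fin n → ℚ) (i : ℕ) :
    FLG_F 𝔞 f i ≤ Submodule.span ℚ {u | ∃ l : List (MQ n), (∀ X ∈ l, X ∈ 𝔞) ∧ l.length = i ∧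
      ∃ v, u = l.prod *ᵥ v} := by
  induction i with
  | zero =>
    intro v _
    exact Submodule.subset_span ⟨[], by simp, rfl, v, by simp⟩
  | succ i ih =>
    refine Submodule.span_le.2 ?_
    rintro u ⟨Z, hZ, v, hv, rfl⟩
    have h1 := ih hv
    clear hv
    show Z *ᵥ v ∈ _
    induction h1 using Submodule.span_induction with
    | mem x hx =>
      obtain ⟨l, hl, hl2, v', rfl⟩ := hx
      refine Submodule.subset_span ⟨Z :: l, ?_, ?_, v', ?_⟩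
      · intro X hX
        rcases List.mem_cons.1 hX with rfl | hX
        · exact hZ
        · exact hl X hX
      · rw [List.length_cons, hl2]
      · rw [List.prod_cons, Matrix.mulVec_mulVec]
    | zero => rw [Matrix.mulVec_zero]; exact Submodule.zero_mem _
    | add x y _ _ hx hy => rw [Matrix.mulVec_add]; exact Submodule.add_mem _ hx hy
    | smul c x _ hx => rw [Matrix.mulVec_smul]; exact Submodule.smul_mem _ c hx

theorem FLG_top {n : ℕ} (𝔞 : Submodule ℚ (MQ n)) (f : Fin n → ℚ) (N : ℕ) (hN : NN N 𝔞)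
    {v : Fin n → ℚ} (hv : v ∈ FLG_F 𝔞 f N) : v = 0 := by
  have h1 := FLG_span 𝔞 f N hv
  have h2 : Submodule.span ℚ {u : Fin n → ℚ | ∃ l : List (MQ n), (∀ X ∈ l, X ∈ 𝔞) ∧ l.length = N ∧
      ∃ v, u = l.prod *ᵥ v} ≤ ⊥ := by
    refine Submodule.span_le.2 ?_
    rintro u ⟨l, hl, hl2, v', rfl⟩
    show l.prod *ᵥ v' ∈ (⊥ : Submodule ℚ (Fin n → ℚ))
    rw [hN l hl hl2.ge, Matrix.zero_mulVec]
    exact Submodule.zero_mem _
  exact (Submodule.mem_bot ℚ).1 (h2 h1)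

theorem FLG_ex {n N : ℕ} {Z : MQ n} (hZ : Z ^ N = 0) :
    EX N Z = 1 + Z + ∑ k ∈ Finset.range N, (((k + 2).factorial : ℚ)⁻¹) • Z ^ (k + 2) := by
  have h1 : EX N Z = EX (N + 2) Z := by
    unfold EX
    rw [Finset.sum_range_succ, Finset.sum_range_succ, pow_succ Z N, hZ]
    simp
  rw [h1]
  unfold EX
  rw [Finset.sum_range_succ', Finset.sum_range_succ']
  have e1 : (((0 + 1 : ℕ).factorial : ℚ)⁻¹) • Z ^ (0 + 1) = Z := by simp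
  have e2 : (((0 : ℕ).factorial : ℚ)⁻¹) • Z ^ 0 = 1 := by simp
  have e3 : (∑ k ∈ Finset.range N, (((k + 1 + 1 : ℕ).factorial : ℚ)⁻¹) • Z ^ (k + 1 + 1)) =
      ∑ k ∈ Finset.range N, (((k + 2).factorial : ℚ)⁻¹) • Z ^ (k + 2) := rfl
  rw [e1, e2, e3]
  abel

theorem FLG_pow {n : ℕ} (𝔞 : Submodule ℚ (MQ n)) (f : Fin n → ℚ) (hf : ∀ Z ∈ 𝔞, f ᵥ* Z = 0)
    (i : ℕ) {Z : MQ n} (hZ : Z ∈ 𝔞) {v : Fin n → ℚ} (hv : v ∈ FLG_F 𝔞 f i) (k : ℕ) :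
    Z ^ (k + 1) *ᵥ v ∈ FLG_F 𝔞 f (i + 1) := by
  induction k with
  | zero => rw [zero_add, pow_one]; exact FLG_succ 𝔞 f i hZ hv
  | succ k ih =>
    rw [pow_succ', ← Matrix.mulVec_mulVec]
    exact FLG_le 𝔞 f hf (i + 1) (FLG_succ 𝔞 f (i + 1) hZ ih)

/-- `exp Z v = v` modulo the next step -/
theorem FLG_exv {n N : ℕ} (𝔞 : Submodule ℚ (MQ n)) (f : Fin n → ℚ) (hf : ∀ Z ∈ 𝔞, f ᵥ* Z = 0)
    {Z : MQ n} (hZ : Z ∈ 𝔞) (hZN : Z ^ N = 0) (i : ℕ) {v : Fin n → ℚ} (hv : v ∈ FLG_F 𝔞 f i) :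
    EX N Z *ᵥ v - v ∈ FLG_F 𝔞 f (i + 1) := by
  have h1 : EX N Z *ᵥ v - v = Z *ᵥ v +
      ∑ k ∈ Finset.range N, (((k + 2).factorial : ℚ)⁻¹) • (Z ^ (k + 2) *ᵥ v) := by
    rw [FLG_ex hZN, Matrix.add_mulVec, Matrix.add_mulVec, Matrix.one_mulVec, Matrix.sum_mulVec]
    simp only [Matrix.smul_mulVec]
    abel
  rw [h1]
  refine Submodule.add_mem _ (FLG_succ 𝔞 f i hZ hv) ?_
  exact Submodule.sum_mem _ fun k _ => Submodule.smul_mem _ _ (FLG_pow 𝔞 f hf i hZ hv (k + 1))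

/-- `exp Z y = y + Z y` modulo the next step -/
theorem FLG_exy {n N : ℕ} (𝔞 : Submodule ℚ (MQ n)) (f : Fin n → ℚ) (hf : ∀ Z ∈ 𝔞, f ᵥ* Z = 0)
    {Z : MQ n} (hZ : Z ∈ 𝔞) (hZN : Z ^ N = 0) (i : ℕ) {y : Fin n → ℚ}
    (hv : Z *ᵥ y ∈ FLG_F 𝔞 f i) :
    EX N Z *ᵥ y - y - Z *ᵥ y ∈ FLG_F 𝔞 f (i + 1) := by
  have h1 : EX N Z *ᵥ y - y - Z *ᵥ y =
      ∑ k ∈ Finset.range N, (((k + 2).factorial : ℚ)⁻¹) • (Z ^ (k + 1) *ᵥ (Z *ᵥ y)) := by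
    rw [FLG_ex hZN, Matrix.add_mulVec, Matrix.add_mulVec, Matrix.one_mulVec, Matrix.sum_mulVec]
    simp only [Matrix.smul_mulVec, Matrix.mulVec_mulVec, ← pow_succ]
    abel
  rw [h1]
  exact Submodule.sum_mem _ fun k _ => Submodule.smul_mem _ _ (FLG_pow 𝔞 f hf i hZ hv k)

section rec

variable {n : ℕ} {N : ℕ} {𝔞 : Submodule ℚ (MQ (n + 1))} {X : Fin n → MQ (n + 1)}
  {f y w : Fin (n + 1) → ℚ}

theorem FLG_AAmem (hX : ∀ j, X j ∈ 𝔞) (v : Fin (n + 1) → ℚ) : AA X y v ∈ 𝔞 :=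
  Submodule.sum_mem _ fun j _ => Submodule.smul_mem _ _ (hX j)

theorem FLG_AA (hX : ∀ j, X j ∈ 𝔞) (hf : ∀ Z ∈ 𝔞, f ᵥ* Z = 0) (hd : dl X y ≠ 0)
    (hfy : f ⬝ᵥ y ≠ 0) (v : Fin (n + 1) → ℚ) (hv : f ⬝ᵥ v = 0) : AA X y v *ᵥ y = v := by
  obtain ⟨c, hc⟩ : ∃ c : Fin (n + 1) → ℚ, c = (dl X y)⁻¹ • ((NM X y).adjugate *ᵥ v) := ⟨_, rfl⟩
  have h1 : NM X y *ᵥ c = v := by
    rw [hc, Matrix.mulVec_smul, Matrix.mulVec_mulVec, Matrix.mul_adjugate, Matrix.smul_mulVec,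
      Matrix.one_mulVec, smul_smul]
    show ((dl X y)⁻¹ * dl X y) • v = v
    rw [inv_mul_cancel₀ hd, one_smul]
  have h2 : NM X y *ᵥ c = c 0 • y + ∑ j : Fin n, c j.succ • (X j *ᵥ y) := by
    funext i
    show ∑ j, NM X y i j * c j = _
    rw [Fin.sum_univ_succ]
    simp only [Pi.add_apply, Pi.smul_apply, Finset.sum_apply, smul_eq_mul]
    congr 1
    · show y i * c 0 = _
      ring
    · refine Finset.sum_congr rfl fun j _ => ?_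
      show (X j *ᵥ y) i * c j.succ = _
      ring
  have h3 : c 0 * (f ⬝ᵥ y) = 0 := by
    rw [← hv, ← h1, h2, dotProduct_add, dotProduct_smul, dotProduct_sum]
    simp only [dotProduct_smul, Matrix.dotProduct_mulVec, hf _ (hX _), zero_dotProduct,
      smul_eq_mul, mul_zero, Finset.sum_const_zero, add_zero]
  have h4 : c 0 = 0 := (mul_eq_zero.1 h3).resolve_right hfy
  rw [h4, zero_smul, zero_add, h1] at h2
  have h5 : AA X y v *ᵥ y = ∑ j : Fin n, c j.succ • (X j *ᵥ y) := by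
    unfold AA
    rw [Matrix.sum_mulVec]
    refine Finset.sum_congr rfl fun j _ => ?_
    rw [Matrix.smul_mulVec, hc]
    simp only [Pi.smul_apply, smul_eq_mul]
    rw [div_eq_inv_mul]
  exact h5.trans h2.symm

/-- `(UPS i).1 v = v` modulo the next step -/
theorem FLG_upv (hN : ∀ Z ∈ 𝔞, Z ^ N = 0) (hX : ∀ j, X j ∈ 𝔞) (hf : ∀ Z ∈ 𝔞, f ᵥ* Z = 0)
    (i : ℕ) (j : ℕ) (v : Fin (n + 1) → ℚ) (hv : v ∈ FLG_F 𝔞 f j) :
    (UPS N X y w i).1 *ᵥ v - v ∈ FLG_F 𝔞 f (j + 1) := by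
  induction i generalizing v with
  | zero =>
    show (1 : MQ (n + 1)) *ᵥ v - v ∈ _
    rw [Matrix.one_mulVec, sub_self]
    exact Submodule.zero_mem _
  | succ i ih =>
    obtain ⟨Z, hZ⟩ : ∃ Z : MQ (n + 1), Z = AA X y (y + w - (UPS N X y w i).1 *ᵥ y) := ⟨_, rfl⟩
    have hZm : Z ∈ 𝔞 := by rw [hZ]; exact FLG_AAmem hX _
    have h0 : (UPS N X y w (i + 1)).1 = (UPS N X y w i).1 * EX N Z := by rw [hZ]; rfl
    rw [h0, ← Matrix.mulVec_mulVec]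
    have h1 := FLG_exv 𝔞 f hf hZm (hN Z hZm) j hv
    have h2 := ih v hv
    have h3 := ih _ (FLG_le 𝔞 f hf j h1)
    have h4 : (UPS N X y w i).1 *ᵥ (EX N Z *ᵥ v) - v =
        ((UPS N X y w i).1 *ᵥ v - v) + ((UPS N X y w i).1 *ᵥ (EX N Z *ᵥ v - v) -
          (EX N Z *ᵥ v - v)) + (EX N Z *ᵥ v - v) := by
      rw [Matrix.mulVec_sub]
      abel
    rw [h4]
    exact Submodule.add_mem _ (Submodule.add_mem _ h2 h3) h1

/-- the error is in step `i` -/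
theorem FLG_err (hN : ∀ Z ∈ 𝔞, Z ^ N = 0) (hX : ∀ j, X j ∈ 𝔞) (hf : ∀ Z ∈ 𝔞, f ᵥ* Z = 0)
    (hd : dl X y ≠ 0) (hfy : f ⬝ᵥ y ≠ 0) (hfw : f ⬝ᵥ w = 0) (i : ℕ) :
    y + w - (UPS N X y w i).1 *ᵥ y ∈ FLG_F 𝔞 f i := by
  induction i with
  | zero =>
    show y + w - (1 : MQ (n + 1)) *ᵥ y ∈ _
    rw [Matrix.one_mulVec, add_sub_cancel_left, FLG_mem0]
    exact hfw
  | succ i ih =>
    obtain ⟨r, hr⟩ : ∃ r : Fin (n + 1) → ℚ, r = y + w - (UPS N X y w i).1 *ᵥ y := ⟨_, rfl⟩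
    obtain ⟨Z, hZ⟩ : ∃ Z : MQ (n + 1), Z = AA X y r := ⟨_, rfl⟩
    have hZm : Z ∈ 𝔞 := by rw [hZ]; exact FLG_AAmem hX _
    have h0 : (UPS N X y w (i + 1)).1 = (UPS N X y w i).1 * EX N Z := by rw [hZ, hr]; rfl
    rw [← hr] at ih
    have hZy : Z *ᵥ y = r := by
      rw [hZ]
      exact FLG_AA hX hf hd hfy r ((FLG_mem0 𝔞 f r).1 (FLG_le0 𝔞 f hf i ih))
    have h1 := FLG_exy 𝔞 f hf hZm (hN Z hZm) i (by rw [hZy]; exact ih : Z *ᵥ y ∈ FLG_F 𝔞 f i)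
    rw [hZy] at h1
    obtain ⟨q, hq⟩ : ∃ q : Fin (n + 1) → ℚ, q = EX N Z *ᵥ y - y - r := ⟨_, rfl⟩
    rw [← hq] at h1
    have h2 : EX N Z *ᵥ y = y + r + q := by rw [hq]; abel
    have h3 := FLG_upv (y := y) (w := w) hN hX hf i i r ih
    have h4 := FLG_upv (y := y) (w := w) hN hX hf i (i + 1) q h1
    have h5 := FLG_le 𝔞 f hf (i + 1) h4
    have h6 : y + w - (UPS N X y w (i + 1)).1 *ᵥ y =
        -((UPS N X y w i).1 *ᵥ r - r) - ((UPS N X y w i).1 *ᵥ q - q) - q := by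
      rw [h0, ← Matrix.mulVec_mulVec, h2, Matrix.mulVec_add, Matrix.mulVec_add]
      have h7 : y + w = (UPS N X y w i).1 *ᵥ y + r := by rw [hr]; abel
      rw [h7]
      abel
    rw [h6]
    exact Submodule.sub_mem _ (Submodule.sub_mem _ (Submodule.neg_mem _ h3) h5) h1

end rec

theorem FLG (hEXF : EXF_stmt) : FLG_stmt := by
  intro n N 𝔞 X f y w hNN hX hf hd hfy hfw
  have hN : ∀ Z ∈ 𝔞, Z ^ N = 0 := fun Z hZ => (hEXF (n + 1) N 𝔞 hNN Z hZ).1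
  refine ⟨?_, ?_, ?_⟩
  · have h1 := FLG_top 𝔞 f N hNN (FLG_err hN hX hf hd hfy hfw N)
    show (UPS N X y w N).1 *ᵥ y = y + w
    exact (sub_eq_zero.1 h1).symm
  · have h : ∀ i, (UPS N X y w i).1 * (UPS N X y w i).2 = 1 := by
      intro i
      induction i with
      | zero => exact mul_one _
      | succ i ih =>
        have h1 := (hEXF (n + 1) N 𝔞 hNN _
          (FLG_AAmem (y := y) hX (y + w - (UPS N X y w i).1 *ᵥ y))).2.2.1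
        show (UPS N X y w i).1 * EX N _ * (EX N (-_) * (UPS N X y w i).2) = 1
        rw [mul_assoc, ← mul_assoc (EX N _) (EX N (-_)), h1, one_mul, ih]
    exact h N
  · have h : ∀ i, (UPS N X y w i).2 * (UPS N X y w i).1 = 1 := by
      intro i
      induction i with
      | zero => exact mul_one _
      | succ i ih =>
        have h1 := (hEXF (n + 1) N 𝔞 hNN _
          (FLG_AAmem (y := y) hX (y + w - (UPS N X y w i).1 *ᵥ y))).2.2.2.1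
        show EX N (-_) * (UPS N X y w i).2 * ((UPS N X y w i).1 * EX N _) = 1
        rw [mul_assoc, ← mul_assoc (UPS N X y w i).2, ih, one_mul, h1]
    exact h N

end Pool.Agent.UH
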